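import Pool.Agent.Helper98.MM.FarPat
import Pool.Agent.Helper66.LK.OneState
import Pool.Agent.Helper5.MMRepB
import Pool.Agent.Helper61.MM.DefsB

set_option autoImplicit false

/-!
# The kernel of the canonical states
-/

namespace Pool.Agent.Helper24.MM

open MeasureTheory ProbabilityTheory Filter Topology Pool.Agent.Helper60.TJ
open Pool.Agent.Helper61.MM
open scoped symmDiff

variable {lam : Measure ℝ} {κ : Kernel WT Rs} {R : Measure Om}

/-- the states of positive conditional probability -/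
noncomputable def Cn (κ : Kernel WT Rs) (b : WT) : Set (Ed → Bool) := {U | kU κ b {U} ≠ 0}

private theorem meas_f : Measurable fun r : Rs => (r ∅).1 :=
  measurable_fst.comp (measurable_pi_apply ∅)

private theorem mark_kU [IsMarkovKernel κ] : IsMarkovKernel (kU κ) := by
  unfold kU
  exact Kernel.IsMarkovKernel.map κ meas_f

theorem measurable_mass (κ : Kernel WT Rs) [IsMarkovKernel κ] :
    Measurable fun q : WT × (Ed → Bool) => kU κ q.1 {q.2} := by
  have hM : MeasurableSet {q : (WT × (Ed → Bool)) × Rs | (q.2 ∅).1 = q.1.2} :=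
    measurableSet_eq_fun (meas_f.comp measurable_snd) (measurable_snd.comp measurable_fst)
  have h := Kernel.measurable_kernel_prodMk_left
    (κ := Kernel.comap κ (Prod.fst : WT × (Ed → Bool) → WT) measurable_fst) hM
  have he : (fun q : WT × (Ed → Bool) => kU κ q.1 {q.2}) =
      fun q : WT × (Ed → Bool) => κ q.1 {r | (r ∅).1 = q.2} := by
    funext q
    unfold kU
    rw [Kernel.map_apply' κ meas_f q.1 (measurableSet_singleton q.2)]
    rfl
  rw [he]
  exact h

/-! ### the law of one state -/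

private theorem kU_apply [IsMarkovKernel κ] (b : WT) {s : Set (Ed → Bool)}
    (hs : MeasurableSet s) : kU κ b s = κ b {r | (r ∅).1 ∈ s} := by
  unfold kU
  rw [Kernel.map_apply' κ meas_f b hs]
  rfl

private theorem law_U (hl : Wgt lam) (hR : IsR lam κ R) (i : Fin 3) {G : Set (WT × (Ed → Bool))}
    (hG : MeasurableSet G) :
    R {z | (bE0 z.1, uu (rp z i) g0) ∈ G} = ∫⁻ b, kU κ b {U | (b, U) ∈ G} ∂(PB lam) := by
  have := hR.mark
  have hG' : MeasurableSet {q : WT × Rs | (q.1, (q.2 ∅).1) ∈ G} :=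
    hG.preimage (measurable_fst.prodMk (meas_f.comp measurable_snd))
  have h := Pool.Agent.Helper98.MM.law_one hl hR i hG'
  have h1 : {z : Om | (bE0 z.1, uu (rp z i) g0) ∈ G} =
      {z | (bE0 z.1, rs (rp z i)) ∈ {q : WT × Rs | (q.1, (q.2 ∅).1) ∈ G}} := rfl
  rw [h1, h]
  refine lintegral_congr fun b => ?_
  exact (kU_apply b (hG.preimage measurable_prodMk_left)).symm

private theorem meas_U (i : Fin 3) : Measurable fun z : Om => uu (rp z i) g0 := by
  have h0 : Measurable fun s : Vl => uu s g0 := measurable_fst.comp (measurable_pi_apply g0)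
  fin_cases i
  · exact h0.comp (measurable_fst.comp measurable_snd)
  · exact h0.comp (measurable_fst.comp (measurable_snd.comp measurable_snd))
  · exact h0.comp (measurable_snd.comp (measurable_snd.comp measurable_snd))

private theorem meas_bU (i : Fin 3) : Measurable fun z : Om => (bE0 z.1, uu (rp z i) g0) :=
  (Pool.Agent.Helper98.MM.measurable_bE0.comp measurable_fst).prodMk (meas_U i)

theorem kU_shift (hl : Wgt lam) (hR : IsR lam κ R) (u : Vx) :
    ∀ᵐ b ∂(PB lam), kU κ (shB u b) = (kU κ b).map (sh u) := by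
  have := hR.mark
  have := hR.prob
  have := Pool.Agent.Helper98.MM.prob_PB hl
  have hK : IsMarkovKernel (kU κ) := mark_kU
  have hmB := Pool.Agent.Helper98.MM.measurable_shB u
  have hmB' := Pool.Agent.Helper98.MM.measurable_shB (-u)
  have hms : Measurable (sh u : (Ed → Bool) → (Ed → Bool)) :=
    Pool.Agent.Helper98.MM.measurable_sh u
  have hKm : IsMarkovKernel ((kU κ).map (sh u)) := Kernel.IsMarkovKernel.map _ hms
  have h : (PB lam) ⊗ₘ ((kU κ).comap (shB u) hmB) = (PB lam) ⊗ₘ ((kU κ).map (sh u)) := by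
    refine Measure.ext fun G hG => ?_
    rw [Measure.compProd_apply hG, Measure.compProd_apply hG]
    -- the left hand side
    have hG1 : MeasurableSet {q : WT × (Ed → Bool) | (shB (-u) q.1, q.2) ∈ G} :=
      hG.preimage ((hmB'.comp measurable_fst).prodMk measurable_snd)
    have h1 : ∫⁻ b, ((kU κ).comap (shB u) hmB) b (Prod.mk b ⁻¹' G) ∂(PB lam) =
        R {z | (bE0 z.1, uu (rp z 0) g0) ∈
          {q : WT × (Ed → Bool) | (shB (-u) q.1, q.2) ∈ G}} := by
      rw [law_U hl hR 0 hG1]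
      have h2 : Measurable fun b : WT => kU κ b {U | (b, U) ∈
          {q : WT × (Ed → Bool) | (shB (-u) q.1, q.2) ∈ G}} :=
        Kernel.measurable_kernel_prodMk_left hG1
      rw [← (mp_shB hl u).lintegral_comp h2]
      refine lintegral_congr fun b => ?_
      rw [Kernel.comap_apply]
      congr 1
      ext U
      change (b, U) ∈ G ↔ (shB (-u) (shB u b), U) ∈ G
      rw [Pool.Agent.Helper98.MM.shB_neg]
    -- the right hand side
    have hG2 : MeasurableSet {q : WT × (Ed → Bool) | (q.1, sh u q.2) ∈ G} :=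
      hG.preimage (measurable_fst.prodMk (hms.comp measurable_snd))
    have h3 : ∫⁻ b, ((kU κ).map (sh u)) b (Prod.mk b ⁻¹' G) ∂(PB lam) =
        R {z | (bE0 z.1, uu (rp z 0) g0) ∈
          {q : WT × (Ed → Bool) | (q.1, sh u q.2) ∈ G}} := by
      rw [law_U hl hR 0 hG2]
      refine lintegral_congr fun b => ?_
      rw [Kernel.map_apply' _ hms _ (hG.preimage measurable_prodMk_left)]
      rfl
    rw [h1, h3]
    have hmU := meas_bU 0
    have h4 := (hR.shift u).measure_preimage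
      ((hG1.preimage hmU).nullMeasurableSet)
    have h5 : shO u ⁻¹' ((fun z : Om => (bE0 z.1, uu (rp z 0) g0)) ⁻¹'
        {q : WT × (Ed → Bool) | (shB (-u) q.1, q.2) ∈ G}) =
        {z | (bE0 z.1, uu (rp z 0) g0) ∈ {q : WT × (Ed → Bool) | (q.1, sh u q.2) ∈ G}} := by
      ext z
      have h6 : uu (rp (shO u z) 0) g0 = sh u (uu (rp z 0) g0) :=
        Pool.Agent.Helper98.MM.rs_shO u z 0
      have h7 : bE0 (shO u z).1 = shB u (bE0 z.1) := rfl
      simp only [Set.mem_preimage, Set.mem_ofPred_eq]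
      rw [h6, h7, Pool.Agent.Helper98.MM.shB_neg]
    rw [h5] at h4
    exact h4.symm
  have h8 := Kernel.ae_eq_of_compProd_eq h
  filter_upwards [h8] with b hb
  rw [Kernel.comap_apply, Kernel.map_apply _ hms] at hb
  exact hb

/-! ### the states are locally minimal -/

private theorem measurableSet_NT : MeasurableSet {w : Ed → ℝ | NT w} := by
  have h1 : {w : Ed → ℝ | NT w} =
      ⋂ C : Finset Ed, ⋂ a : Finset Ed, {w | C.Nonempty → en w (ind a) C ≠ 0} := by
    ext w
    simp only [Set.mem_ofPred_eq, Set.mem_iInter]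
    constructor
    · intro h C a hC
      exact h C hC _
    · intro h C hC U
      have h2 := h C (C.filter fun e => U e = true) hC
      have h3 : en w (ind (C.filter fun e => U e = true)) C = en w U C := by
        unfold en
        refine Finset.sum_congr rfl fun e he => ?_
        congr 2
        simp only [ind, Finset.mem_filter, he, true_and]
        cases U e <;> rfl
      rwa [h3] at h2
  rw [h1]
  refine MeasurableSet.iInter fun C => MeasurableSet.iInter fun a => ?_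
  by_cases hC : C.Nonempty
  · have h2 : {w : Ed → ℝ | C.Nonempty → en w (ind a) C ≠ 0} =
        {w | en w (ind a) C = 0}ᶜ := by
      ext w; simp [hC]
    rw [h2]
    refine MeasurableSet.compl (measurableSet_eq_fun ?_ measurable_const)
    exact (measurable_en_prod C).comp (measurable_id.prodMk measurable_const)
  · have h2 : {w : Ed → ℝ | C.Nonempty → en w (ind a) C ≠ 0} = Set.univ := by
      ext w; simp [hC]
    rw [h2]; exact MeasurableSet.univ

theorem kU_GS (hl : Wgt lam) (hR : IsR lam κ R) :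
    ∀ᵐ b ∂(PB lam), (∀ e, 0 < b.1 e) ∧ NT b.1 ∧ ∀ᵐ U ∂(kU κ b), U ∈ GS b.1 b.2 := by
  have := hR.mark
  have := hR.prob
  have := Pool.Agent.Helper98.MM.prob_PB hl
  have hK : IsMarkovKernel (kU κ) := mark_kU
  have hm1 : MeasurableSet {q : WT × (Ed → Bool) | ∀ e, 0 < q.1.1 e} := by
    rw [Set.ofPred_forall]
    refine MeasurableSet.iInter fun e => ?_
    exact measurableSet_lt measurable_const
      ((measurable_pi_apply e).comp (measurable_fst.comp measurable_fst))
  have hm2 : MeasurableSet {q : WT × (Ed → Bool) | NT q.1.1} :=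
    measurableSet_NT.preimage (measurable_fst.comp measurable_fst)
  have hm3 := Pool.Agent.Helper66.LK.measurableSet_GS
  have hm := (hm1.inter (hm2.inter hm3)).compl
  have h := law_U hl hR 0 hm
  have h1 : R {z | (bE0 z.1, uu (rp z 0) g0) ∈ ({q : WT × (Ed → Bool) | ∀ e, 0 < q.1.1 e} ∩
      ({q : WT × (Ed → Bool) | NT q.1.1} ∩ {q : WT × (Ed → Bool) | q.2 ∈ GS q.1.1 q.1.2}))ᶜ} =
      0 := by
    have h2 := hR.ok
    rw [ae_iff] at h2
    refine measure_mono_null ?_ h2
    intro z hz hok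
    apply hz
    have hz0 := hok 0
    have hw : ww g0 z.1 = (bE0 z.1).1 := by
      funext e
      simp [ww, bE0]
    have ht : tt g0 z.1 = (bE0 z.1).2 := Pool.Agent.Helper66.LK.tt_g0 z.1
    refine ⟨fun e => (hz0.pos e).1, ?_, ?_⟩
    · change NT (bE0 z.1).1
      rw [← hw]
      exact hz0.nt g0
    · change uu (rp z 0) g0 ∈ GS (bE0 z.1).1 (bE0 z.1).2
      rw [← hw, ← ht]
      exact hz0.mem g0
  rw [h] at h1
  have h1' := (lintegral_eq_zero_iff (Kernel.measurable_kernel_prodMk_left hm)).1 h1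
  filter_upwards [h1'] with b hb
  have hb1 : kU κ b {U | (b, U) ∈ ({q : WT × (Ed → Bool) | ∀ e, 0 < q.1.1 e} ∩
      ({q : WT × (Ed → Bool) | NT q.1.1} ∩ {q : WT × (Ed → Bool) | q.2 ∈ GS q.1.1 q.1.2}))ᶜ} =
      0 := hb
  have hae : ∀ᵐ U ∂(kU κ b), (∀ e, 0 < b.1 e) ∧ NT b.1 ∧ U ∈ GS b.1 b.2 := by
    rw [ae_iff]
    exact hb1
  obtain ⟨U, hU⟩ := hae.exists
  exact ⟨hU.1, hU.2.1, hae.mono fun V hV => hV.2.2⟩

/-! ### two atoms -/

private theorem atoms_of_carrier {Y : Type*} [MeasurableSpace Y] [MeasurableSingletonClass Y]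
    {ν : Measure Y} [IsProbabilityMeasure ν] {x y : Y} (h : ν ({x, y} : Set Y)ᶜ = 0) :
    {U | ν {U} ≠ 0}.Finite ∧ {U | ν {U} ≠ 0}.ncard ≤ 2 ∧ {U | ν {U} ≠ 0} ≠ ∅ ∧
      ν {U | ν {U} ≠ 0} = 1 := by
  have hsub : {U | ν {U} ≠ 0} ⊆ ({x, y} : Set Y) := by
    intro U hU
    by_contra hn
    exact hU (measure_mono_null (Set.singleton_subset_iff.2 hn) h)
  have hfin : ({x, y} : Set Y).Finite := Set.toFinite _
  have hf := hfin.subset hsub
  have h1 : ν {U | ν {U} ≠ 0} = 1 := by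
    have h2 : ν {U | ν {U} ≠ 0}ᶜ = 0 := by
      have h3 : ({U | ν {U} ≠ 0}ᶜ : Set Y) ⊆
          ({x, y} : Set Y)ᶜ ∪ ({U | ν {U} ≠ 0}ᶜ ∩ {x, y}) := by
        intro U hU
        by_cases h4 : U ∈ ({x, y} : Set Y)
        · exact Or.inr ⟨hU, h4⟩
        · exact Or.inl h4
      refine measure_mono_null h3 (measure_union_null h ?_)
      have h5 : ({U | ν {U} ≠ 0}ᶜ ∩ {x, y} : Set Y).Countable :=
        (hfin.subset Set.inter_subset_right).countable
      rw [measure_null_iff_singleton h5]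
      rintro U ⟨hU, _⟩
      by_contra hn
      exact hU hn
    exact (prob_compl_eq_zero_iff hf.measurableSet).1 h2
  refine ⟨hf, ?_, ?_, h1⟩
  · exact (Set.ncard_le_ncard hsub hfin).trans (Set.ncard_insert_le x {y} |>.trans (by simp))
  · intro h6
    rw [h6, measure_empty] at h1
    exact zero_ne_one h1

private theorem carrier_of_three {Y : Type*} [MeasurableSpace Y] [MeasurableSingletonClass Y]
    {ν : Measure Y} [IsProbabilityMeasure ν]
    (h : ∀ᵐ x ∂ν, ∀ᵐ y ∂ν, x ≠ y → ν {z | x ≠ z ∧ y ≠ z} = 0) :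
    ∃ x y, ν ({x, y} : Set Y)ᶜ = 0 := by
  have hset : ∀ x y : Y, ({x, y} : Set Y)ᶜ = {z | x ≠ z ∧ y ≠ z} := by
    intro x y
    ext z
    simp only [Set.mem_compl_iff, Set.mem_insert_iff, Set.mem_singleton_iff, not_or,
      Set.mem_ofPred_eq]
    exact ⟨fun h => ⟨fun h1 => h.1 h1.symm, fun h1 => h.2 h1.symm⟩,
      fun h => ⟨fun h1 => h.1 h1.symm, fun h1 => h.2 h1.symm⟩⟩
  by_cases hA : ∀ᵐ x ∂ν, ∀ᵐ y ∂ν, x = y
  · obtain ⟨x, hx⟩ := hA.exists
    refine ⟨x, x, ?_⟩
    rw [hset]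
    rw [ae_iff] at hx
    exact measure_mono_null (fun z hz => hz.1) hx
  · obtain ⟨x, hx, hx'⟩ := ((Filter.not_eventually.1 hA).and_eventually h).exists
    obtain ⟨y, hy, hy'⟩ := ((Filter.not_eventually.1 hx).and_eventually hx').exists
    refine ⟨x, y, ?_⟩
    rw [hset]
    exact hy' hy

private theorem three_U (hl : Wgt lam) (hR : IsR lam κ R)
    (h3 : R (Df 0 1 g0 ∩ Df 0 2 g0 ∩ Df 1 2 g0) = 0) :
    ∀ᵐ b ∂(PB lam), ∀ᵐ x ∂(kU κ b), ∀ᵐ y ∂(kU κ b),
      x ≠ y → kU κ b {z | x ≠ z ∧ y ≠ z} = 0 := by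
  have := hl.prob
  have := Pool.Agent.Helper98.MM.prob_PB hl
  have := hR.mark
  have := hR.prob
  have hm := Pool.Agent.Helper98.MM.map_Phi hl hR
  have h1 : R.map Pool.Agent.Helper98.MM.Phi Pool.Agent.Helper98.MM.N3 = 0 := by
    rw [Measure.map_apply Pool.Agent.Helper98.MM.measurable_Phi
      Pool.Agent.Helper98.MM.measurableSet_N3]
    refine measure_mono_null ?_ h3
    intro z hz
    exact ⟨⟨hz.1, hz.2.1⟩, hz.2.2⟩
  rw [hm, Measure.compProd_apply Pool.Agent.Helper98.MM.measurableSet_N3, lintegral_eq_zero_iff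
      (Kernel.measurable_kernel_prodMk_left Pool.Agent.Helper98.MM.measurableSet_N3)] at h1
  have hK : IsMarkovKernel (kU κ) := mark_kU
  filter_upwards [h1] with b hb
  have hb1 : ((κ ×ₖ (κ ×ₖ κ)) b) (Prod.mk b ⁻¹' Pool.Agent.Helper98.MM.N3) = 0 := hb
  have mN := Pool.Agent.Helper98.MM.measurableSet_N3.preimage (measurable_prodMk_left (x := b))
  rw [Kernel.prod_apply, Measure.measure_prod_null mN] at hb1
  -- measurability of the inner sets
  have hmz : ∀ x y : Ed → Bool, MeasurableSet {z : Ed → Bool | x ≠ z ∧ y ≠ z} := by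
    intro x y
    have h5 : {z : Ed → Bool | x ≠ z ∧ y ≠ z} = {x}ᶜ ∩ {y}ᶜ := by
      ext z
      simp only [Set.mem_ofPred_eq, Set.mem_inter_iff, Set.mem_compl_iff, Set.mem_singleton_iff]
      exact ⟨fun h => ⟨fun h1 => h.1 h1.symm, fun h1 => h.2 h1.symm⟩,
        fun h => ⟨fun h1 => h.1 h1.symm, fun h1 => h.2 h1.symm⟩⟩
    rw [h5]
    exact (measurableSet_singleton x).compl.inter (measurableSet_singleton y).compl
  have hM3 : MeasurableSet {q : ((Ed → Bool) × (Ed → Bool)) × (Ed → Bool) |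
      q.1.1 ≠ q.2 ∧ q.1.2 ≠ q.2} := by
    refine MeasurableSet.inter ?_ ?_
    · exact (measurableSet_eq_fun (measurable_fst.comp measurable_fst) measurable_snd).compl
    · exact (measurableSet_eq_fun (measurable_snd.comp measurable_fst) measurable_snd).compl
  have hfm : Measurable fun q : (Ed → Bool) × (Ed → Bool) =>
      kU κ b {z | q.1 ≠ z ∧ q.2 ≠ z} := measurable_measure_prodMk_left hM3
  have hS2 : MeasurableSet {q : (Ed → Bool) × (Ed → Bool) |
      q.1 ≠ q.2 → kU κ b {z | q.1 ≠ z ∧ q.2 ≠ z} = 0} := by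
    have h6 : {q : (Ed → Bool) × (Ed → Bool) |
      q.1 ≠ q.2 → kU κ b {z | q.1 ≠ z ∧ q.2 ≠ z} = 0} =
      {q | q.1 = q.2} ∪ {q | kU κ b {z | q.1 ≠ z ∧ q.2 ≠ z} = 0} := by
      ext q
      simp only [Set.mem_ofPred_eq, Set.mem_union]
      tauto
    rw [h6]
    exact (measurableSet_eq_fun measurable_fst measurable_snd).union
      (hfm (measurableSet_singleton 0))
  -- the statement for the product measure
  have hgoal : ∀ᵐ x ∂(κ b), ∀ᵐ y ∂(κ b), (x ∅).1 ≠ (y ∅).1 →
      kU κ b {z | (x ∅).1 ≠ z ∧ (y ∅).1 ≠ z} = 0 := by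
    filter_upwards [hb1] with x hx
    have hx1 : ((κ ×ₖ κ) b) (Prod.mk x ⁻¹' (Prod.mk b ⁻¹' Pool.Agent.Helper98.MM.N3)) = 0 := hx
    have mN' := mN.preimage (measurable_prodMk_left (x := x))
    rw [Kernel.prod_apply, Measure.measure_prod_null mN'] at hx1
    filter_upwards [hx1] with y hy
    intro hxy
    have hy1 : (κ b) (Prod.mk y ⁻¹' (Prod.mk x ⁻¹'
      (Prod.mk b ⁻¹' Pool.Agent.Helper98.MM.N3))) = 0 := hy
    rw [kU_apply b (hmz _ _)]
    refine measure_mono_null ?_ hy1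
    intro r hr
    exact ⟨hxy, hr.1, hr.2⟩
  have hsec : ∀ x : Ed → Bool, MeasurableSet {y : Ed → Bool |
      x ≠ y → kU κ b {z | x ≠ z ∧ y ≠ z} = 0} := fun x =>
    hS2.preimage (measurable_prodMk_left (x := x))
  have hout : MeasurableSet {x : Ed → Bool | ∀ᵐ y ∂(kU κ b),
      x ≠ y → kU κ b {z | x ≠ z ∧ y ≠ z} = 0} := by
    have h7 : Measurable fun x : Ed → Bool => kU κ b (Prod.mk x ⁻¹'
        {q : (Ed → Bool) × (Ed → Bool) |
          q.1 ≠ q.2 → kU κ b {z | q.1 ≠ z ∧ q.2 ≠ z} = 0}ᶜ) :=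
      measurable_measure_prodMk_left hS2.compl
    exact h7 (measurableSet_singleton 0)
  have hmap : kU κ b = (κ b).map fun r : Rs => (r ∅).1 := by
    unfold kU
    exact Kernel.map_apply κ meas_f b
  have h8 : (∀ᵐ x ∂((κ b).map fun r : Rs => (r ∅).1), ∀ᵐ y ∂(kU κ b),
      x ≠ y → kU κ b {z | x ≠ z ∧ y ≠ z} = 0) := by
    rw [ae_map_iff meas_f.aemeasurable hout]
    filter_upwards [hgoal] with x hx
    have h9 : (∀ᵐ y ∂((κ b).map fun r : Rs => (r ∅).1),
      (x ∅).1 ≠ y → kU κ b {z | (x ∅).1 ≠ z ∧ y ≠ z} = 0) := by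
      rw [ae_map_iff meas_f.aemeasurable (hsec _)]
      exact hx
    rw [← hmap] at h9
    exact h9
  rw [← hmap] at h8
  exact h8

/-- no three different replicas: at most two atoms -/
theorem two_atoms (hl : Wgt lam) (hR : IsR lam κ R)
    (h3 : R (Df 0 1 g0 ∩ Df 0 2 g0 ∩ Df 1 2 g0) = 0) :
    ∀ᵐ b ∂(PB lam), (Cn κ b).Finite ∧ (Cn κ b).ncard ≤ 2 ∧ Cn κ b ≠ ∅ ∧ kU κ b (Cn κ b) = 1 := by
  have := hR.mark
  have hK : IsMarkovKernel (kU κ) := mark_kU
  filter_upwards [three_U hl hR h3] with b hb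
  obtain ⟨x, y, hxy⟩ := carrier_of_three hb
  exact atoms_of_carrier hxy

/-- the toggled states of the replicas are canonical for the toggled environment -/
theorem mem_Cn (hl : Wgt lam) (hR : IsR lam κ R)
    (h3 : R (Df 0 1 g0 ∩ Df 0 2 g0 ∩ Df 1 2 g0) = 0) (S : Finset Vx) :
    ∀ᵐ z ∂(R), ∀ i, uu (rp z i) (S, ∅) ∈ Cn κ (tB S (bE0 z.1)) := by
  have := hR.mark
  have hK : IsMarkovKernel (kU κ) := mark_kU
  have h1 : ∀ i : Fin 3, ∀ᵐ z ∂(R), uu (rp z i) g0 ∈ Cn κ (bE0 z.1) := by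
    intro i
    have hG : MeasurableSet {q : WT × (Ed → Bool) | kU κ q.1 {q.2} = 0} :=
      measurable_mass κ (measurableSet_singleton 0)
    have h2 := law_U hl hR i hG
    have h4 : ∫⁻ b, kU κ b {U | (b, U) ∈ {q : WT × (Ed → Bool) | kU κ q.1 {q.2} = 0}}
        ∂(PB lam) = 0 := by
      refine (lintegral_eq_zero_iff (Kernel.measurable_kernel_prodMk_left hG)).2 ?_
      filter_upwards [two_atoms hl hR h3] with b hb
      have h5 : (Cn κ b)ᶜ = {U | (b, U) ∈ {q : WT × (Ed → Bool) | kU κ q.1 {q.2} = 0}} := by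
        ext U
        unfold Cn
        simp only [Set.mem_compl_iff, Set.mem_ofPred_eq, not_not]
      change kU κ b {U | (b, U) ∈ {q : WT × (Ed → Bool) | kU κ q.1 {q.2} = 0}} = 0
      rw [← h5]
      exact (prob_compl_eq_zero_iff hb.1.measurableSet).2 hb.2.2.2
    rw [h4] at h2
    have h6 : ∀ᵐ z ∂(R), z ∉ {z : Om | (bE0 z.1, uu (rp z i) g0) ∈
        {q : WT × (Ed → Bool) | kU κ q.1 {q.2} = 0}} := measure_eq_zero_iff_ae_notMem.1 h2
    filter_upwards [h6] with z hz
    exact hz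
  have h7 : ∀ᵐ z ∂(R), ∀ i : Fin 3, uu (rp z i) g0 ∈ Cn κ (bE0 z.1) := ae_all_iff.2 h1
  have h8 := (hR.act (S, ∅)).quasiMeasurePreserving.ae h7
  filter_upwards [h8] with z hz i
  have h9 := hz i
  have h10 : uu (rp (aO (S, ∅) z) i) g0 = uu (rp z i) (S, ∅) := by
    rw [Pool.Agent.Helper5.MM.rp_aO]
    unfold uu aV
    rw [Pool.Agent.Helper5.MM.gad_g0]
  have h11 : bE0 (aO (S, ∅) z).1 = tB S (bE0 z.1) := by
    unfold bE0 aO aE tB
    simp
  rw [h10, h11] at h9
  exact h9

end Pool.Agent.Helper24.MM
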